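import Pool.Agent.Helper49.KX.St

/-!
# Project KX (MP_c973ff_an), module BBM: the block elements form a copy of the matrices
-/

set_option autoImplicit false

namespace Pool.Agent.Helper80.KX

open Finset Filter Topology MeasureTheory Module
open Pool.Agent.Helper49.KX

variable {X : Type} [TopologicalSpace X]

theorem zadd_BBM (h : X ≃ₜ X) (m n : ℤ) (x : X) :
    (h ^ (m + n) : X ≃ₜ X) x = (h ^ m : X ≃ₜ X) ((h ^ n : X ≃ₜ X) x) := by
  rw [zpow_add]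
  rfl

theorem cmp_mul_BBM (h : X ≃ₜ X) (n : ℤ) (f g : C(X, ℂ)) :
    cmp h n (f * g) = cmp h n f * cmp h n g := by
  ext x
  simp

/-- the contribution of one tower -/
noncomputable def eb {A : Type} [Ring A] [Algebra ℂ A] (j : C(X, ℂ) →ₐ[ℂ] A) (U : Aˣ) (Y : Set X)
    {r : ℕ} (M : Matrix (Fin r) (Fin r) C(X, ℂ)) : A :=
  ∑ i : Fin r, ∑ k : Fin r,
    ((U ^ (((i : ℕ) : ℤ)) : Aˣ) : A) * j (chi Y * M i k) * ((U ^ (-((k : ℕ) : ℤ)) : Aˣ) : A)

theorem chi_sq_BBM {Y : Set X} (hY : IsClopen Y) (F G : C(X, ℂ)) :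
    (chi Y * F) * (chi Y * G) = chi Y * (F * G) := by
  ext x
  simp only [ContinuousMap.mul_apply, chi_apply hY]
  split_ifs <;> ring

section

variable {A : Type} [Ring A] [Algebra ℂ A] (h : X ≃ₜ X) (j : C(X, ℂ) →ₐ[ℂ] A) (U : Aˣ)

theorem ev_single_BBM (n : ℤ) (f : C(X, ℂ)) :
    ev j U (Finsupp.single n f) = j f * ((U ^ n : Aˣ) : A) := by
  unfold ev
  rw [Finsupp.sum_single_index]
  simp

theorem ev_sum_BBM (hadd : ∀ g g' : FS X, ev j U (g + g') = ev j U g + ev j U g')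
    {ι : Type} (s : Finset ι) (f : ι → FS X) : ev j U (∑ i ∈ s, f i) = ∑ i ∈ s, ev j U (f i) := by
  classical
  induction s using Finset.induction_on with
  | empty => simp [ev]
  | insert a s ha ih => rw [Finset.sum_insert ha, Finset.sum_insert ha, hadd, ih]

theorem ev_BB_BBM
    (hcomm : ∀ (n : ℤ) (f : C(X, ℂ)), ((U ^ n : Aˣ) : A) * j f = j (cmp h (-n) f) * ((U ^ n : Aˣ) : A))
    (hadd : ∀ g g' : FS X, ev j U (g + g') = ev j U g + ev j U g')
    {n : ℕ} (Y : Fin n → Set X) (r : Fin n → ℕ)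
    (M : ∀ v, Matrix (Fin (r v)) (Fin (r v)) C(X, ℂ)) :
    ev j U (BB h Y r M) = ∑ v, eb j U (Y v) (M v) := by
  unfold BB eb
  rw [ev_sum_BBM j U hadd]
  refine Finset.sum_congr rfl fun v _ => ?_
  rw [ev_sum_BBM j U hadd]
  refine Finset.sum_congr rfl fun i _ => ?_
  rw [ev_sum_BBM j U hadd]
  refine Finset.sum_congr rfl fun k _ => ?_
  rw [ev_single_BBM, hcomm, mul_assoc, ← Units.val_mul, ← zpow_add, sub_eq_add_neg]

/-- the key product -/
theorem key_BBM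
    (hcomm : ∀ (n : ℤ) (f : C(X, ℂ)), ((U ^ n : Aˣ) : A) * j f = j (cmp h (-n) f) * ((U ^ n : Aˣ) : A))
    {Y Z : Set X} (hY : IsClopen Y) (hZ : IsClopen Z) (k l : ℕ)
    (hd : ∀ x, (h ^ (-(k : ℤ)) : X ≃ₜ X) x ∈ Y → (h ^ (-(l : ℤ)) : X ≃ₜ X) x ∈ Z → False)
    (F G : C(X, ℂ)) :
    j (chi Y * F) * ((U ^ (-(k : ℤ)) : Aˣ) : A) * (((U ^ (l : ℤ) : Aˣ) : A) * j (chi Z * G)) = 0 := by
  have h1 : ((U ^ (-(k : ℤ)) : Aˣ) : A) * (((U ^ (l : ℤ) : Aˣ) : A) * j (chi Z * G))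
      = j (cmp h (-(-(k : ℤ) + l)) (chi Z * G)) * ((U ^ (-(k : ℤ) + l) : Aˣ) : A) := by
    rw [← mul_assoc, ← Units.val_mul, ← zpow_add, hcomm]
  rw [mul_assoc, h1, ← mul_assoc, ← map_mul]
  have h2 : chi Y * F * cmp h (-(-(k : ℤ) + l)) (chi Z * G) = 0 := by
    ext x
    simp only [ContinuousMap.mul_apply, cmp_apply, chi_apply hY, chi_apply hZ,
      ContinuousMap.zero_apply]
    by_cases hx : x ∈ Y
    · by_cases hz : (h ^ (-(-(k : ℤ) + l)) : X ≃ₜ X) x ∈ Z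
      · exfalso
        refine hd ((h ^ (k : ℤ) : X ≃ₜ X) x) ?_ ?_
        · rw [← zadd_BBM]
          simpa using hx
        · rw [← zadd_BBM]
          have : -(l : ℤ) + k = -(-(k : ℤ) + l) := by ring
          rw [this]
          exact hz
      · rw [if_neg hz, zero_mul, mul_zero]
    · rw [if_neg hx, zero_mul, zero_mul]
  rw [h2, map_zero, zero_mul]

theorem eb_ne_BBM
    (hcomm : ∀ (n : ℤ) (f : C(X, ℂ)), ((U ^ n : Aˣ) : A) * j f = j (cmp h (-n) f) * ((U ^ n : Aˣ) : A))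
    {Y Z : Set X} (hY : IsClopen Y) (hZ : IsClopen Z) {r s : ℕ}
    (hd : ∀ (k l : ℕ), k < r → l < s → ∀ x, (h ^ (-(k : ℤ)) : X ≃ₜ X) x ∈ Y →
      (h ^ (-(l : ℤ)) : X ≃ₜ X) x ∈ Z → False)
    (M : Matrix (Fin r) (Fin r) C(X, ℂ)) (M' : Matrix (Fin s) (Fin s) C(X, ℂ)) :
    eb j U Y M * eb j U Z M' = 0 := by
  unfold eb
  rw [Finset.sum_mul]
  refine Finset.sum_eq_zero fun i _ => ?_
  rw [Finset.sum_mul]
  refine Finset.sum_eq_zero fun k _ => ?_
  rw [Finset.mul_sum]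
  refine Finset.sum_eq_zero fun l _ => ?_
  rw [Finset.mul_sum]
  refine Finset.sum_eq_zero fun m _ => ?_
  have := key_BBM h j U hcomm hY hZ k l (hd k l k.2 l.2) (M i k) (M' l m)
  calc ((U ^ (((i : ℕ) : ℤ)) : Aˣ) : A) * j (chi Y * M i k) * ((U ^ (-((k : ℕ) : ℤ)) : Aˣ) : A)
        * (((U ^ (((l : ℕ) : ℤ)) : Aˣ) : A) * j (chi Z * M' l m)
          * ((U ^ (-((m : ℕ) : ℤ)) : Aˣ) : A))
      = ((U ^ (((i : ℕ) : ℤ)) : Aˣ) : A) * (j (chi Y * M i k) * ((U ^ (-((k : ℕ) : ℤ)) : Aˣ) : A)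
        * (((U ^ (((l : ℕ) : ℤ)) : Aˣ) : A) * j (chi Z * M' l m)))
          * ((U ^ (-((m : ℕ) : ℤ)) : Aˣ) : A) := by noncomm_ring
    _ = 0 := by rw [this, mul_zero, zero_mul]

theorem eb_mul_BBM
    (hcomm : ∀ (n : ℤ) (f : C(X, ℂ)), ((U ^ n : Aˣ) : A) * j f = j (cmp h (-n) f) * ((U ^ n : Aˣ) : A))
    {Y : Set X} (hY : IsClopen Y) {r : ℕ}
    (hd : ∀ (k l : ℕ), k < r → l < r → ∀ x, (h ^ (-(k : ℤ)) : X ≃ₜ X) x ∈ Y →
      (h ^ (-(l : ℤ)) : X ≃ₜ X) x ∈ Y → k = l)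
    (M M' : Matrix (Fin r) (Fin r) C(X, ℂ)) :
    eb j U Y M * eb j U Y M' = eb j U Y (M * M') := by
  have key : ∀ (i k l m : Fin r),
      ((U ^ (((i : ℕ) : ℤ)) : Aˣ) : A) * j (chi Y * M i k) * ((U ^ (-((k : ℕ) : ℤ)) : Aˣ) : A)
        * (((U ^ (((l : ℕ) : ℤ)) : Aˣ) : A) * j (chi Y * M' l m)
          * ((U ^ (-((m : ℕ) : ℤ)) : Aˣ) : A))
      = if l = k then ((U ^ (((i : ℕ) : ℤ)) : Aˣ) : A) * j (chi Y * (M i k * M' k m))
          * ((U ^ (-((m : ℕ) : ℤ)) : Aˣ) : A) else 0 := by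
    intro i k l m
    split_ifs with hkl
    · subst hkl
      have e1 : ((U ^ (-((l : ℕ) : ℤ)) : Aˣ) : A) * ((U ^ (((l : ℕ) : ℤ)) : Aˣ) : A) = 1 := by
        rw [← Units.val_mul, ← zpow_add]
        simp
      calc ((U ^ (((i : ℕ) : ℤ)) : Aˣ) : A) * j (chi Y * M i l) * ((U ^ (-((l : ℕ) : ℤ)) : Aˣ) : A)
            * (((U ^ (((l : ℕ) : ℤ)) : Aˣ) : A) * j (chi Y * M' l m)
              * ((U ^ (-((m : ℕ) : ℤ)) : Aˣ) : A))
          = ((U ^ (((i : ℕ) : ℤ)) : Aˣ) : A) * (j (chi Y * M i l)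
            * (((U ^ (-((l : ℕ) : ℤ)) : Aˣ) : A) * ((U ^ (((l : ℕ) : ℤ)) : Aˣ) : A))
            * j (chi Y * M' l m)) * ((U ^ (-((m : ℕ) : ℤ)) : Aˣ) : A) := by noncomm_ring
        _ = _ := by rw [e1, mul_one, ← map_mul, chi_sq_BBM hY]
    · have := key_BBM h j U hcomm hY hY k l (fun x hx hx' =>
        hkl (Fin.ext (hd k l k.2 l.2 x hx hx').symm)) (M i k) (M' l m)
      calc ((U ^ (((i : ℕ) : ℤ)) : Aˣ) : A) * j (chi Y * M i k) * ((U ^ (-((k : ℕ) : ℤ)) : Aˣ) : A)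
            * (((U ^ (((l : ℕ) : ℤ)) : Aˣ) : A) * j (chi Y * M' l m)
              * ((U ^ (-((m : ℕ) : ℤ)) : Aˣ) : A))
          = ((U ^ (((i : ℕ) : ℤ)) : Aˣ) : A) * (j (chi Y * M i k)
            * ((U ^ (-((k : ℕ) : ℤ)) : Aˣ) : A)
            * (((U ^ (((l : ℕ) : ℤ)) : Aˣ) : A) * j (chi Y * M' l m)))
              * ((U ^ (-((m : ℕ) : ℤ)) : Aˣ) : A) := by noncomm_ring
        _ = 0 := by rw [this, mul_zero, zero_mul]
  unfold eb
  rw [Finset.sum_mul]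
  refine Finset.sum_congr rfl fun i _ => ?_
  rw [Finset.sum_mul]
  simp only [Finset.mul_sum, key]
  have e2 : ∀ k : Fin r, (∑ l : Fin r, ∑ m : Fin r, if l = k then
      ((U ^ (((i : ℕ) : ℤ)) : Aˣ) : A) * j (chi Y * (M i k * M' k m))
          * ((U ^ (-((m : ℕ) : ℤ)) : Aˣ) : A) else 0)
      = ∑ m : Fin r, ((U ^ (((i : ℕ) : ℤ)) : Aˣ) : A) * j (chi Y * (M i k * M' k m))
          * ((U ^ (-((m : ℕ) : ℤ)) : Aˣ) : A) := by
    intro k
    rw [Finset.sum_comm]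
    refine Finset.sum_congr rfl fun m _ => ?_
    rw [Finset.sum_ite_eq' Finset.univ k, if_pos (Finset.mem_univ k)]
  rw [Finset.sum_congr rfl fun k _ => e2 k, Finset.sum_comm]
  refine Finset.sum_congr rfl fun m _ => ?_
  rw [Matrix.mul_apply, Finset.mul_sum, map_sum, Finset.mul_sum, Finset.sum_mul]

end

theorem hBBM : StBbm := by
  intro hE X _ h A _ _ j U hcov n Y r hT
  obtain ⟨hcomm, hadd, -, -, -⟩ := hE X h A j U hcov
  refine ⟨?_, ?_, ?_, ?_⟩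
  · rw [ev_BB_BBM h j U hcomm hadd]
    have e1 : ∀ v : Fin n, eb j U (Y v) (1 : Matrix (Fin (r v)) (Fin (r v)) C(X, ℂ))
        = ∑ i : Fin (r v), j (cmp h (-((i : ℕ) : ℤ)) (chi (Y v))) := by
      intro v
      unfold eb
      refine Finset.sum_congr rfl fun i _ => ?_
      rw [Finset.sum_eq_single i]
      · rw [Matrix.one_apply_eq, mul_one, hcomm, mul_assoc, ← Units.val_mul, ← zpow_add]
        simp
      · intro k _ hk
        rw [Matrix.one_apply_ne hk.symm, mul_zero, map_zero, mul_zero, zero_mul]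
      · intro hi
        exact absurd (Finset.mem_univ i) hi
    rw [Finset.sum_congr rfl fun v _ => e1 v]
    have e2 : (∑ v : Fin n, ∑ i : Fin (r v), cmp h (-((i : ℕ) : ℤ)) (chi (Y v)))
        = (1 : C(X, ℂ)) := by
      ext x
      obtain ⟨v₀, i₀, hi₀, hx₀⟩ := hT.cover x
      rw [ContinuousMap.coe_sum, Finset.sum_apply, ContinuousMap.one_apply]
      rw [Finset.sum_eq_single v₀]
      · rw [ContinuousMap.coe_sum, Finset.sum_apply, Finset.sum_eq_single ⟨i₀, hi₀⟩]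
        · rw [cmp_apply, chi_apply (hT.clopen v₀), if_pos hx₀]
        · intro k _ hk
          rw [cmp_apply, chi_apply (hT.clopen v₀), if_neg]
          intro hx
          exact hk (Fin.ext (hT.disj v₀ v₀ k i₀ k.2 hi₀ x hx hx₀).2)
        · intro hh
          exact absurd (Finset.mem_univ _) hh
      · intro w _ hw
        rw [ContinuousMap.coe_sum, Finset.sum_apply]
        refine Finset.sum_eq_zero fun k _ => ?_
        rw [cmp_apply, chi_apply (hT.clopen w), if_neg]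
        intro hx
        exact hw (hT.disj w v₀ k i₀ k.2 hi₀ x hx hx₀).1
      · intro hh
        exact absurd (Finset.mem_univ _) hh
    have e3 : (∑ v : Fin n, ∑ i : Fin (r v), j (cmp h (-((i : ℕ) : ℤ)) (chi (Y v))))
        = j (∑ v : Fin n, ∑ i : Fin (r v), cmp h (-((i : ℕ) : ℤ)) (chi (Y v))) := by
      simp only [map_sum]
    rw [e3, e2, map_one]
  · intro M M'
    rw [ev_BB_BBM h j U hcomm hadd, ev_BB_BBM h j U hcomm hadd, ev_BB_BBM h j U hcomm hadd,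
      ← Finset.sum_add_distrib]
    refine Finset.sum_congr rfl fun v _ => ?_
    unfold eb
    simp only [Matrix.add_apply, mul_add, map_add, add_mul, Finset.sum_add_distrib]
  · intro M M'
    rw [ev_BB_BBM h j U hcomm hadd, ev_BB_BBM h j U hcomm hadd, ev_BB_BBM h j U hcomm hadd,
      Finset.sum_mul]
    refine Finset.sum_congr rfl fun v _ => ?_
    rw [Finset.mul_sum, Finset.sum_eq_single v]
    · exact (eb_mul_BBM h j U hcomm (hT.clopen v)
        (fun k l hk hl x hx hx' => (hT.disj v v k l hk hl x hx hx').2) (M v) (M' v)).symm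
    · intro w _ hw
      exact eb_ne_BBM h j U hcomm (hT.clopen v) (hT.clopen w)
        (fun k l hk hl x hx hx' => hw (hT.disj v w k l hk hl x hx hx').1.symm) (M v) (M' w)
    · intro hh
      exact absurd (Finset.mem_univ _) hh
  · intro M M' hM
    unfold BB
    refine Finset.sum_congr rfl fun v _ => Finset.sum_congr rfl fun i _ =>
      Finset.sum_congr rfl fun k _ => ?_
    have : chi (Y v) * M v i k = chi (Y v) * M' v i k := by
      ext x
      simp only [ContinuousMap.mul_apply, chi_apply (hT.clopen v)]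
      split_ifs with hx
      · rw [hM v x hx i k]
      · ring
    rw [this]

end Pool.Agent.Helper80.KX
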